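import Mathlib
import Pool.Agent.Q262.RL.Key5

/-!
# The Lehmer inequality for points of the multiplicative group in fields with large subfields

Let `Γ` be a finitely generated subgroup of `G_m`, over a number field, and `E = K(Γ)`; then for a point
`x` of `G_m` the Lehmer inequality of the conjecture is `[E(x) : E] h(x) ≥ c_Γ`. It is proved here, with
`c_Γ = c / [E : ℚ]`, for all algebraic integers `x` which are neither zero nor roots of unity (so for all
such `x` outside the saturation of `Γ`), under a condition on `ℚ(x)` and not on `Γ`.

Fix a prime number `p` and a power `q` of `p`. Let `F` be a number field (Galois over `ℚ` or not) with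
an automorphism `τ` and a set `T` of prime ideals above `p`, such that `x ^ q ≡ τ x` modulo `P` for all
the integers `x` of `F` and all `P` in `T`, and such that the sum of the local degrees of the members
of `T` is at least `[F : ℚ] / B`. For instance `τ = 1`, if this is so for the prime ideals of residue
degree at most `f`, and `q = p ^ f !`. Nothing is assumed on the ramification of `F`, and nothing on
the other prime ideals. The condition on `x` is that `ℚ(x)`, or an extension `K` of `ℚ(x)` of degree at
most `C`, contains such a field `F` with `[K : F] ≤ C [F : ℚ] ^ κ`, and that all powers `x ^ (p ^ s)`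
generate `ℚ(x)`. If `T` contains all the prime ideals above `p`, and their ramification indices are
equal up to a factor of at most `B` (for instance, if `F` is Galois over `ℚ`), then
`log (2 [F : ℚ] D) exp (√(3 log q log D)) ≤ C [F : ℚ]`, `D = [K : F]`, suffices.

There is also a relative inequality over the fields `F` themselves, up to a power `D ^ ε`: if `T`
contains all prime ideals above `p`, and the ramification indices are at most `E`, then
`h(x) ≥ log p / (10 p q ^ 2 E D exp (√(3 log q log D)))` for all the algebraic integers `x`, neither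
zero nor a root of unity, which are of degree `D` over `F`. The degree of `F` does not occur in it.

Method. Let `g` be the sum of the residue degrees of the members of `T`, `N = [F : ℚ]`. If
`g ≤ c N / log (2 N D)`, then at least `1 / B` of the conjugates of `x` are zeros modulo a prime above
`p` of an integer polynomial of degree at most `c' n / log (2 n)`, `n = [ℚ(x) : ℚ]`. A part of the
conjugates suffices in the method of the starting library's `MP_7ab245_nt/HighRamification`.
Otherwise the product of the norms of the members of `T` is at least `p ^ (N / B')` with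
`B' ≤ log (2 N D) / c + 1`, and the twisted Vandermonde determinants of
`MP_7ab245_nt/PadicEmbeddings` give a bound `n h(x) ≥ √N / C'`, although `B'` is not bounded. For the
second condition and the relative inequality similar determinants are used with the exponents
`q ^ j p ^ a`, `p ^ a ≥ E`; then the congruences hold modulo powers of `p` itself, and the loss is only
linear in `E`.
-/

set_option autoImplicit false

open NumberField Module

namespace Pool.Agent.Results.MP_187c26_nt.LargeSubfields

/-- The number field `F` has an automorphism `τ` and a set `T` of prime ideals above `p` with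
`x ^ q ≡ τ x` modulo `P` for all the integers `x` of `F` and all `P` in `T`, such that the sum of the
local degrees (products of ramification index and residue degree) of the members of `T` is at least
`[F : ℚ] / B`. (For `B = 1` this means that all the prime ideals above `p` are in `T`.) -/
def HasFrobenius (p q B : ℕ) (F : Type) [Field F] [NumberField F] : Prop :=
  ∃ (τ : F ≃+* F) (T : Finset (Ideal (𝓞 F))),
    (∀ P ∈ T, P ∈ (Ideal.span {(p : ℤ)}).primesOver (𝓞 F) ∧
      ∀ x : 𝓞 F, x ^ q - RingOfIntegers.mapRingHom (τ : F →+* F) x ∈ P) ∧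
    finrank ℚ F ≤ B * ∑ P ∈ T, P.ramificationIdx ℤ * P.inertiaDeg ℤ

/-- All the ramification indices of `F` above `p` are at most `E`. -/
def RamificationAtMost (p E : ℕ) (F : Type) [Field F] [NumberField F] : Prop :=
  ∀ P ∈ (Ideal.span {(p : ℤ)}).primesOver (𝓞 F), P.ramificationIdx ℤ ≤ E

/-- The ramification indices of `F` above `p` are equal up to a factor of at most `B`. -/
def ComparableRamification (p B : ℕ) (F : Type) [Field F] [NumberField F] : Prop :=
  ∀ P ∈ (Ideal.span {(p : ℤ)}).primesOver (𝓞 F), ∀ Q ∈ (Ideal.span {(p : ℤ)}).primesOver (𝓞 F),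
    P.ramificationIdx ℤ ≤ B * Q.ramificationIdx ℤ

/-- The condition on an extension of relative degree `D` of `F`. -/
def IsLarge (p e B C κ : ℕ) (F : Type) [Field F] [NumberField F] (D : ℕ) : Prop :=
  (HasFrobenius p (p ^ e) B F ∧ D ≤ C * finrank ℚ F ^ κ) ∨
  (HasFrobenius p (p ^ e) 1 F ∧ ComparableRamification p B F ∧
    Real.log (2 * (finrank ℚ F * D)) * Real.exp (√(3 * (e * Real.log p) * Real.log D)) ≤
      C * finrank ℚ F)

/-- `x` is neither zero nor a root of unity. -/
def IsWandering {M : Type} [Field M] [NumberField M] (x : 𝓞 M) : Prop :=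
  x ≠ 0 ∧ ∀ m : ℕ, 0 < m → x ^ m ≠ 1

/-- The absolute logarithmic Weil height of the algebraic integer `x`: the mean of the `log⁺ |σ x|`
over the embeddings `σ` of a number field which contains `x`. -/
noncomputable def height {M : Type} [Field M] [NumberField M] (x : 𝓞 M) : ℝ :=
  (∑ σ : M →+* ℂ, Real.log (max 1 ‖σ (x : M)‖)) / finrank ℚ M

/-- `10 p ^ (2 e + 1) E exp (√(3 e log p log D)) / log p` -/
noncomputable def cost (p e E D : ℕ) : ℝ :=
  10 * (p : ℝ) ^ (2 * e + 1) * E * Real.exp (√(3 * (e * Real.log p) * Real.log D)) / Real.log p

/-- **The Lehmer inequality for points of `G_m` in fields with large subfields.**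

1. For every prime number `p`, all `e > 0`, `B`, `C` and `κ` there is `c > 0` such that
   `[L : E] h(x) ≥ c / [E : ℚ]` for all number fields `E` (for instance `E = K(Γ)` for a finitely
   generated group `Γ`), all algebraic integers `x`, neither zero nor roots of unity, and all extensions
   `L` of `E` and of `M = ℚ(x)` (for instance `L = E(x)`), provided that `ℚ(x ^ (p ^ s)) = ℚ(x)` for
   all `s` and that an extension `K` of `M` of degree at most `C` contains a number field `F` with
   `IsLarge p e B C κ F [K : F]`.
2. If `HasFrobenius p (p ^ e) 1 F` and the ramification indices of `F` above `p` are at most `E`,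
   then `1 ≤ cost(p, e, E, D) D h(x)` for all the algebraic integers `x`, neither zero nor a root of
   unity, of an extension `K` of `F` of degree `D`.
3. If there is a set of prime ideals of `F` above `p`, of residue degrees at most `f`, whose local
   degrees have a sum of at least `[F : ℚ] / B`, then `HasFrobenius p (p ^ f !) B F`.
4. If `F` is Galois over `ℚ`, then `ComparableRamification p 1 F`. -/
theorem result :
    (∀ (p e B C κ : ℕ), p.Prime → 0 < e → ∃ c : ℝ, 0 < c ∧
      ∀ (F K M : Type) [Field F] [NumberField F] [Field K] [NumberField K] [Algebra F K]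
        [Field M] [NumberField M] [Algebra M K] (x : 𝓞 M), IsWandering x →
        (∀ s : ℕ, IntermediateField.adjoin ℚ {(x : M) ^ p ^ s} = ⊤) →
        finrank M K ≤ C → IsLarge p e B C κ F (finrank F K) →
        ∀ (E L : Type) [Field E] [NumberField E] [Field L] [NumberField L] [Algebra E L]
          [Algebra M L], c / finrank ℚ E ≤ finrank E L * height x) ∧
    (∀ (p e E : ℕ), p.Prime → 0 < e →
      ∀ (F K : Type) [Field F] [NumberField F] [Field K] [NumberField K] [Algebra F K]
        (x : 𝓞 K), IsWandering x → HasFrobenius p (p ^ e) 1 F → RamificationAtMost p E F →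
        1 ≤ cost p e E (finrank F K) * (finrank F K * height x)) ∧
    (∀ (F : Type) [Field F] [NumberField F] (p f B : ℕ), p.Prime → ∀ T : Finset (Ideal (𝓞 F)),
      (∀ P ∈ T, P ∈ (Ideal.span {(p : ℤ)}).primesOver (𝓞 F) ∧ P.inertiaDeg ℤ ≤ f) →
      finrank ℚ F ≤ B * ∑ P ∈ T, P.ramificationIdx ℤ * P.inertiaDeg ℤ →
      HasFrobenius p (p ^ f.factorial) B F) ∧
    (∀ (F : Type) [Field F] [NumberField F] (p : ℕ), p.Prime → IsGalois ℚ F →
      ComparableRamification p 1 F) := by
  have hlam : ∀ (M : Type) [Field M] [NumberField M] (x : 𝓞 M),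
      height x * finrank ℚ M = Pool.Agent.H388SL.lam (x : M) := by
    intro M _ _ x
    have h0 : (0 : ℝ) < finrank ℚ M := by exact_mod_cast (finrank_pos : 0 < finrank ℚ M)
    unfold height
    rw [div_mul_cancel₀ _ h0.ne', Pool.Agent.Q191.MV.lam_eq]
  refine ⟨?_, ?_, ?_, ?_⟩
  · intro p e B C κ hp he
    obtain ⟨μ1, hμ1, hkey1⟩ := Pool.Agent.Q262.RL.key4 hp he B κ C C
    obtain ⟨μ2, hμ2, hkey2⟩ := Pool.Agent.Q262.RL.key2 hp he B C (C : ℝ)
    refine ⟨min μ1 μ2, lt_min hμ1 hμ2, ?_⟩
    intro F K M _ _ _ _ _ _ _ _ x hx hgen hMK hF E L _ _ _ _ _ _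
    have h : min μ1 μ2 ≤ Real.log ((minpoly ℤ (x : M)).map (Int.castRingHom ℂ)).mahlerMeasure := by
      rcases hF with ⟨hF1, hF2⟩ | ⟨hF1, hF2, hF3⟩
      · exact (min_le_left _ _).trans (hkey1 F K M x hF1 hF2 hMK hx.1 hx.2 hgen)
      · exact (min_le_right _ _).trans (hkey2 F K M x (finrank F K)
          (Pool.Agent.Q262.RL.all_of_mass hp hF1) hF2 le_rfl hF3 hMK hx.1 hx.2 hgen)
    have h2 : IntermediateField.adjoin ℚ {(x : M)} = ⊤ := by
      have := hgen 0
      rwa [pow_zero, pow_one] at this
    rw [Pool.Agent.Y399.MG.log_mahler x h2, ← hlam M x] at h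
    haveI : FiniteDimensional E L := FiniteDimensional.right ℚ E L
    haveI : FiniteDimensional M L := FiniteDimensional.right ℚ M L
    have htow : finrank ℚ E * finrank E L = finrank ℚ M * finrank M L := by
      rw [Module.finrank_mul_finrank ℚ E L, Module.finrank_mul_finrank ℚ M L]
    have hML : 0 < finrank M L := finrank_pos
    have hle : finrank ℚ M ≤ finrank ℚ E * finrank E L := by
      rw [htow]
      exact Nat.le_mul_of_pos_right _ hML
    have hle' : (finrank ℚ M : ℝ) ≤ finrank ℚ E * finrank E L := by exact_mod_cast hle
    have hE0 : (0 : ℝ) < finrank ℚ E := by exact_mod_cast (finrank_pos : 0 < finrank ℚ E)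
    have hh : 0 ≤ height x := by
      unfold height
      refine div_nonneg (Finset.sum_nonneg fun σ _ => Real.log_nonneg (le_max_left _ _))
        (Nat.cast_nonneg _)
    rw [div_le_iff₀ hE0]
    calc min μ1 μ2 ≤ height x * finrank ℚ M := h
      _ ≤ height x * (finrank ℚ E * finrank E L) := mul_le_mul_of_nonneg_left hle' hh
      _ = finrank E L * height x * finrank ℚ E := by ring
  · intro p e E hp he F K _ _ _ _ _ x hx hF hE
    haveI : FiniteDimensional F K := FiniteDimensional.right ℚ F K
    have hx0 : (x : K) ≠ 0 := fun h => hx.1 (RingOfIntegers.coe_eq_zero_iff.1 h)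
    have hxr : ∀ j : ℕ, 0 < j → (x : K) ^ j ≠ 1 := by
      intro j hj h
      exact hx.2 j hj (RingOfIntegers.ext (by simpa using h))
    have h1 := Pool.Agent.Q262.RL.ram_bound hp he (Pool.Agent.Q262.RL.all_of_mass hp hF) hE
      (x : K) hx0 x.isIntegral_coe hxr
    rw [← hlam K x] at h1
    have hF0 : (0 : ℝ) < finrank ℚ F := by exact_mod_cast (finrank_pos : 0 < finrank ℚ F)
    have htow : (finrank ℚ K : ℝ) = finrank ℚ F * finrank F K := by
      exact_mod_cast (Module.finrank_mul_finrank ℚ F K).symm
    rw [htow] at h1
    have h2 : (finrank ℚ F : ℝ) * 1 ≤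
        finrank ℚ F * (cost p e E (finrank F K) * (finrank F K * height x)) := by
      rw [mul_one]
      refine h1.trans (le_of_eq ?_)
      unfold cost Pool.Agent.Q262.RL.rcost
      ring
    exact le_of_mul_le_mul_left h2 hF0
  · intro F _ _ p f B hp T hT hN
    exact Pool.Agent.Q262.RL.mass_of_res hp T hT hN
  · intro F _ _ p hp hG P hP Q hQ
    have := hP.1
    have := hP.2
    have := hQ.1
    have := hQ.2
    rw [one_mul]
    exact (Ideal.ramificationIdx_eq_of_isGaloisGroup (Ideal.span {(p : ℤ)}) P Q Gal(F/ℚ)).le

end Pool.Agent.Results.MP_187c26_nt.LargeSubfields
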