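import Mathlib
import Pool.Agent.Q273.RLc

set_option autoImplicit false

/-!
# Which saturated subgroups of finite rank of `G_m^n` can be Lehmer groups

Points of `G = G_m^n` over the algebraic closure of `ℚ` are the functions
`Fin n → (AlgebraicClosure ℚ)ˣ`. The base field `K` is any subfield of the algebraic closure, in
particular any number field.
-/

namespace Pool.Agent.Results.MP_187c26_nt.LehmerGroupsInTori

open MvPolynomial

/-- the canonical height of a point of `G_m^n`: the sum of the absolute logarithmic Weil heights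
of the coordinates -/
noncomputable def hG {n : ℕ} (x : Fin n → (AlgebraicClosure ℚ)ˣ) : ℝ :=
  ∑ i, NumberField.absLogHeight₁ (x i : AlgebraicClosure ℚ)

/-- the value `x_1^(a_1) ... x_n^(a_n)` of a character at a point -/
noncomputable def character {n : ℕ} (a : Fin n → ℤ) (x : Fin n → (AlgebraicClosure ℚ)ˣ) :
    (AlgebraicClosure ℚ)ˣ := ∏ i, x i ^ a i

/-- `K(Γ)`: the field generated over `K` by the coordinates of the points of `Γ` -/
noncomputable def coordField {n : ℕ} (K : IntermediateField ℚ (AlgebraicClosure ℚ))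
    (Γ : Subgroup (Fin n → (AlgebraicClosure ℚ)ˣ)) : IntermediateField ℚ (AlgebraicClosure ℚ) :=
  K ⊔ IntermediateField.adjoin ℚ {y | ∃ g ∈ Γ, ∃ i, y = (g i : AlgebraicClosure ℚ)}

/-- `Γ` is saturated: every point with a positive power in `Γ` is in `Γ` -/
def IsSaturated {n : ℕ} (Γ : Subgroup (Fin n → (AlgebraicClosure ℚ)ˣ)) : Prop :=
  ∀ x, (∃ N : ℕ, 0 < N ∧ x ^ N ∈ Γ) → x ∈ Γ

/-- `Γ` has finite rank: there are finitely many points such that every point of `Γ` has a positive
power in the group which they generate -/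
def FiniteRank {n : ℕ} (Γ : Subgroup (Fin n → (AlgebraicClosure ℚ)ˣ)) : Prop :=
  ∃ F : Finset (Fin n → (AlgebraicClosure ℚ)ˣ), ∀ x ∈ Γ, ∃ N : ℕ, 0 < N ∧
    x ^ N ∈ Subgroup.closure (F : Set (Fin n → (AlgebraicClosure ℚ)ˣ))

/-- the point `x` is `Γ`-transverse, for a saturated group `Γ`: no proper `Γ`-torsion subvariety
contains it, that is, there is no nontrivial character whose values at `x` and at some point of `Γ`
are equal -/
def IsTransverse {n : ℕ} (Γ : Subgroup (Fin n → (AlgebraicClosure ℚ)ˣ))
    (x : Fin n → (AlgebraicClosure ℚ)ˣ) : Prop :=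
  ∀ b : Fin n → ℤ, b ≠ 0 → ∀ g ∈ Γ, character b x ≠ character b g

/-- the inequality in the definition of a Lehmer group, for the subvarieties which are points, and
with hypersurfaces in the obstruction index: there is `c > 0` such that
`(deg_1 P + ... + deg_n P) h_G(x) ≥ c` for all `Γ`-transverse points `x` and all nonzero
polynomials `P` with coefficients in `K(Γ)` which vanish at `x`. The degree of the hypersurface
`P = 0` for `O(1, ..., 1)` is at most `(n - 1)! (deg_1 P + ... + deg_n P)`, so every Lehmer group
has this property. -/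
def LehmerForPoints {n : ℕ} (K : IntermediateField ℚ (AlgebraicClosure ℚ))
    (Γ : Subgroup (Fin n → (AlgebraicClosure ℚ)ˣ)) : Prop :=
  ∃ c : ℝ, 0 < c ∧ ∀ x : Fin n → (AlgebraicClosure ℚ)ˣ, IsTransverse Γ x →
    ∀ P : MvPolynomial (Fin n) (coordField K Γ), P ≠ 0 →
      aeval (fun i => (x i : AlgebraicClosure ℚ)) P = 0 →
        c ≤ (∑ i, (P.degreeOf i : ℝ)) * hG x

/-- the subgroup of `G_m` generated by all coordinates of all points of `Γ` -/
noncomputable def coordGroup {n : ℕ} (Γ : Subgroup (Fin n → (AlgebraicClosure ℚ)ˣ)) :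
    Subgroup (AlgebraicClosure ℚ)ˣ :=
  Subgroup.closure {u | ∃ g ∈ Γ, ∃ i, u = g i}

/-- the group `C^n` of the points all of whose coordinates are in `C = coordGroup Γ` -/
noncomputable def coordPow {n : ℕ} (Γ : Subgroup (Fin n → (AlgebraicClosure ℚ)ˣ)) :
    Subgroup (Fin n → (AlgebraicClosure ℚ)ˣ) :=
  Subgroup.pi Set.univ fun _ => coordGroup Γ

/-- **Theorem.** Let `K` be a number field or any other subfield of the algebraic closure, let `Γ`
be a saturated subgroup of finite rank of `G_m^n` and let `C` be the group generated by all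
coordinates of its points. Then `Γ` satisfies the inequality of a Lehmer group for points if and
only if every nontrivial character maps `Γ` onto `C` and `C^n` satisfies this inequality. -/
theorem result (K : IntermediateField ℚ (AlgebraicClosure ℚ)) (n : ℕ)
    (Γ : Subgroup (Fin n → (AlgebraicClosure ℚ)ˣ)) (hsat : IsSaturated Γ) (hfin : FiniteRank Γ) :
    LehmerForPoints K Γ ↔
      (∀ a : Fin n → ℤ, a ≠ 0 → ∀ u ∈ coordGroup Γ, ∃ g ∈ Γ, character a g = u) ∧
        LehmerForPoints K (coordPow Γ) := by
  have hcoord : ∀ (n : ℕ) (Γ : Subgroup (Fin n → (AlgebraicClosure ℚ)ˣ)), ∀ g ∈ Γ, ∀ i,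
      (g i : AlgebraicClosure ℚ) ∈ coordField K Γ := by
    intro n Γ g hg i
    exact (le_sup_right : _ ≤ coordField K Γ)
      (IntermediateField.subset_adjoin ℚ _ ⟨g, hg, i, rfl⟩)
  have e : coordField K (coordPow Γ) = coordField K Γ := by
    apply le_antisymm
    · refine sup_le le_sup_left (IntermediateField.adjoin_le_iff.mpr ?_)
      rintro y ⟨g, hg, i, rfl⟩
      have h1 := hg i (Set.mem_univ i)
      let U : Subgroup (AlgebraicClosure ℚ)ˣ :=
        { carrier := {u | (u : AlgebraicClosure ℚ) ∈ coordField K Γ}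
          mul_mem' := by
            intro u v hu hv
            show ((u * v : (AlgebraicClosure ℚ)ˣ) : AlgebraicClosure ℚ) ∈ coordField K Γ
            rw [Units.val_mul]
            exact mul_mem hu hv
          one_mem' := by
            show ((1 : (AlgebraicClosure ℚ)ˣ) : AlgebraicClosure ℚ) ∈ coordField K Γ
            rw [Units.val_one]
            exact one_mem _
          inv_mem' := by
            intro u hu
            show ((u⁻¹ : (AlgebraicClosure ℚ)ˣ) : AlgebraicClosure ℚ) ∈ coordField K Γ
            rw [Units.val_inv_eq_inv_val]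
            exact inv_mem hu }
      have h2 : coordGroup Γ ≤ U := by
        unfold coordGroup
        rw [Subgroup.closure_le]
        rintro _ ⟨g', hg', j, rfl⟩
        exact hcoord n Γ g' hg' j
      exact h2 h1
    · refine sup_le le_sup_left (IntermediateField.adjoin_le_iff.mpr ?_)
      rintro y ⟨g, hg, i, rfl⟩
      exact hcoord n (coordPow Γ) g (Q273.RL.le_coordPow Γ hg) i
  have e1 : LehmerForPoints K (coordPow Γ) ↔ Q273.RL.Leh (coordField K Γ) (coordPow Γ) := by
    have : LehmerForPoints K (coordPow Γ) ↔
        Q273.RL.Leh (coordField K (coordPow Γ)) (coordPow Γ) := Iff.rfl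
    rw [this, e]
  rw [e1]
  exact Q273.RL.leh_iff (coordField K Γ) Γ (hcoord n Γ) hsat hfin

end Pool.Agent.Results.MP_187c26_nt.LehmerGroupsInTori
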