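import Mathlib
import Pool.Agent.Q273.RLc

set_option autoImplicit false

/-!
# Subgroups of rank one of `G_m^n` are not Lehmer groups

Points of `G = G_m^n` over the algebraic closure of `ℚ` are the functions
`Fin n → (AlgebraicClosure ℚ)ˣ`. The base field `K` is any subfield of the algebraic closure, in
particular any number field.
-/

namespace Pool.Agent.Results.MP_187c26_nt.RankOneGroups

open MvPolynomial

/-- the canonical height of a point of `G_m^n`: the sum of the absolute logarithmic Weil heights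
of the coordinates -/
noncomputable def hG {n : ℕ} (x : Fin n → (AlgebraicClosure ℚ)ˣ) : ℝ :=
  ∑ i, NumberField.absLogHeight₁ (x i : AlgebraicClosure ℚ)

/-- the value `x_1^(a_1) ... x_n^(a_n)` of a character at a point -/
noncomputable def character {n : ℕ} (a : Fin n → ℤ) (x : Fin n → (AlgebraicClosure ℚ)ˣ) :
    (AlgebraicClosure ℚ)ˣ := ∏ i, x i ^ a i

/-- `K(Γ)`: the field generated over `K` by the coordinates of the points of `Γ` -/
noncomputable def coordField {n : ℕ} (K : IntermediateField ℚ (AlgebraicClosure ℚ))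
    (Γ : Subgroup (Fin n → (AlgebraicClosure ℚ)ˣ)) : IntermediateField ℚ (AlgebraicClosure ℚ) :=
  K ⊔ IntermediateField.adjoin ℚ {y | ∃ g ∈ Γ, ∃ i, y = (g i : AlgebraicClosure ℚ)}

/-- `Γ` is saturated: every point with a positive power in `Γ` is in `Γ` -/
def IsSaturated {n : ℕ} (Γ : Subgroup (Fin n → (AlgebraicClosure ℚ)ˣ)) : Prop :=
  ∀ x, (∃ N : ℕ, 0 < N ∧ x ^ N ∈ Γ) → x ∈ Γ

/-- `Γ` has rank one: it contains a point `g` of infinite order such that every point of `Γ` has a
positive power which is a power of `g` -/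
def RankOne {n : ℕ} (Γ : Subgroup (Fin n → (AlgebraicClosure ℚ)ˣ)) : Prop :=
  ∃ g ∈ Γ, (∀ N : ℕ, 0 < N → g ^ N ≠ 1) ∧ ∀ x ∈ Γ, ∃ N : ℕ, 0 < N ∧ ∃ k : ℤ, x ^ N = g ^ k

/-- the point `x` is `Γ`-transverse, for a saturated group `Γ`: no proper `Γ`-torsion subvariety
contains it, that is, there is no nontrivial character whose values at `x` and at some point of `Γ`
are equal -/
def IsTransverse {n : ℕ} (Γ : Subgroup (Fin n → (AlgebraicClosure ℚ)ˣ))
    (x : Fin n → (AlgebraicClosure ℚ)ˣ) : Prop :=
  ∀ b : Fin n → ℤ, b ≠ 0 → ∀ g ∈ Γ, character b x ≠ character b g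

/-- the inequality in the definition of a Lehmer group, for the subvarieties which are points, and
with hypersurfaces in the obstruction index: there is `c > 0` such that
`(deg_1 P + ... + deg_n P) h_G(x) ≥ c` for all `Γ`-transverse points `x` and all nonzero
polynomials `P` with coefficients in `K(Γ)` which vanish at `x`. The degree of the hypersurface
`P = 0` for `O(1, ..., 1)` is at most `(n - 1)! (deg_1 P + ... + deg_n P)`, so every Lehmer group
has this property. -/
def LehmerForPoints {n : ℕ} (K : IntermediateField ℚ (AlgebraicClosure ℚ))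
    (Γ : Subgroup (Fin n → (AlgebraicClosure ℚ)ˣ)) : Prop :=
  ∃ c : ℝ, 0 < c ∧ ∀ x : Fin n → (AlgebraicClosure ℚ)ˣ, IsTransverse Γ x →
    ∀ P : MvPolynomial (Fin n) (coordField K Γ), P ≠ 0 →
      aeval (fun i => (x i : AlgebraicClosure ℚ)) P = 0 →
        c ≤ (∑ i, (P.degreeOf i : ℝ)) * hG x

/-- **Theorem.** Let `K` be a number field or any other subfield of the algebraic closure, and let
`n ≥ 2`. No saturated subgroup of rank one of `G_m^n` is a Lehmer group: it does not even satisfy
the inequality for points. Saturated subgroups of rank one exist. -/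
theorem result (K : IntermediateField ℚ (AlgebraicClosure ℚ)) (n : ℕ) (hn : 2 ≤ n) :
    (∃ Γ : Subgroup (Fin n → (AlgebraicClosure ℚ)ˣ), IsSaturated Γ ∧ RankOne Γ) ∧
    ∀ Γ : Subgroup (Fin n → (AlgebraicClosure ℚ)ˣ), IsSaturated Γ → RankOne Γ →
      ¬ LehmerForPoints K Γ := by
  refine ⟨Q273.RL.exists_rank_one (by omega), ?_⟩
  rintro Γ hsat ⟨g, hg, hg1, hgen⟩
  have hcoord : ∀ g ∈ Γ, ∀ i, (g i : AlgebraicClosure ℚ) ∈ coordField K Γ := by
    intro g hg i
    exact (le_sup_right : _ ≤ coordField K Γ)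
      (IntermediateField.subset_adjoin ℚ _ ⟨g, hg, i, rfl⟩)
  exact Q273.RL.not_leh_rank_one hn (coordField K Γ) Γ hcoord hsat g hg hg1 hgen

end Pool.Agent.Results.MP_187c26_nt.RankOneGroups
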